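import Pool.Agent.Helper67_Refl.CloI
import Pool.Agent.Helper93_Refl.Lina

/-!
# CLOII
-/

namespace Pool.Agent.Refl.H67

open Matrix Pool.Agent.Refl H93

theorem rdP_ex (hPk : PkZStmt) (O : K.OC) (hp : 1 ≤ O.p) (hp' : O.p ≤ 127) (s : ℕ)
    (f : ℕ → ℕ → ℕ) : ∃ (v : Z4) (s' : ℕ), K.rdP O s f = f (pkZ O.p v) s' := by
  have e : K.rdP O s f = K.rd4 7 s fun a b c d s => K.fc (K.redm O.p (K.p4 a b c d)) fun x => f x s :=
    rfl
  have e2 : ∀ g : ℕ → ℕ → ℕ → ℕ → ℕ → ℕ, ∃ a b c d t : ℕ, a < 65536 ∧ b < 65536 ∧ c < 65536 ∧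
      d < 65536 ∧ K.rd4 7 s g = g a b c d t := by
    intro g
    have e3 : K.rd4 7 s g = K.fc (Nat.pow 2 7) fun W => K.fc (Nat.mod s (Nat.pow W 4)) fun h =>
      K.fc (Nat.div s (Nat.pow W 4)) fun s' =>
      g (Nat.mod h W) (Nat.mod (Nat.div h W) W) (Nat.mod (Nat.div h (Nat.pow W 2)) W)
      (Nat.div h (Nat.pow W 3)) s' := rfl
    rw [fc_eq, fc_eq, fc_eq] at e3
    refine ⟨_, _, _, _, _, ?_, ?_, ?_, ?_, e3⟩
    · exact lt_trans (Nat.mod_lt _ (by decide)) (by decide)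
    · exact lt_trans (Nat.mod_lt _ (by decide)) (by decide)
    · exact lt_trans (Nat.mod_lt _ (by decide)) (by decide)
    · have h1 : Nat.mod s (Nat.pow (Nat.pow 2 7) 4) < 2 ^ 28 := Nat.mod_lt _ (by decide)
      have h2 : Nat.div (Nat.mod s (Nat.pow (Nat.pow 2 7) 4)) (Nat.pow (Nat.pow 2 7) 3) < 2 ^ 7 :=
        Nat.div_lt_of_lt_mul (lt_of_lt_of_le h1 (by decide))
      exact lt_trans h2 (by decide)
  obtain ⟨a, b, c, d, t, ha, hb, hc, hd, h⟩ := e2 fun a b c d s =>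
    K.fc (K.redm O.p (K.p4 a b c d)) fun x => f x s
  rw [e, h, fc_eq, (hPk O.p hp hp').2.2.2.2 a b c d ha hb hc hd]
  exact ⟨_, _, rfl⟩

theorem okb_ne {b : Bool} {s : ℕ} (h : K.okb b s ≠ 0) : b = true := by
  cases b
  · exact absurd rfl h
  · rfl

theorem dvd4_iff (m : ℕ) (u : K.I4) : K.dvd4 m u = true ↔ ∀ i, (m : ℤ) ∣ vI u i := by
  unfold K.dvd4
  rw [ands_iff, ands_iff, ands_iff, dvdI_iff, dvdI_iff, dvdI_iff, dvdI_iff, Fin.forall_fin_succ,
    Fin.forall_fin_succ, Fin.forall_fin_succ, Fin.forall_fin_one]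
  exact and_assoc

theorem dvd_all_of_det {p : ℕ} (hp : p.Prime) {W : M4} (h : W.det.natAbs = p ^ 3) :
    ¬ ∀ i j, (p : ℤ) ∣ W i j := by
  intro h'
  choose V hV using h'
  have e : W = (p : ℤ) • (Matrix.of V : M4) := by
    ext i j
    simp [hV i j]
  rw [e, Matrix.det_smul, Int.natAbs_mul, Fintype.card_fin, Int.natAbs_pow,
    Int.natAbs_natCast] at h
  have h2 : p ^ 4 ∣ p ^ 3 := ⟨_, h.symm⟩
  have := (Nat.pow_dvd_pow_iff_le_right hp.one_lt).1 h2
  omega

theorem bz_dvd {p : ℤ} {R : M4} (hs : R.transpose = R) {u : Z4} (h : ∀ i, p ∣ R.mulVec u i)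
    (v : Z4) : p ∣ bz R v u ∧ p ∣ bz R u v := by
  have h1 : p ∣ bz R v u := by
    rw [H93.bz_eq]
    exact Finset.dvd_sum fun i _ => Dvd.dvd.mul_left (h i) _
  refine ⟨h1, ?_⟩
  have : bz R u v = bz R v u := by
    rw [H93.bz_eq, H93.bz_eq, Matrix.dotProduct_mulVec, ← Matrix.mulVec_transpose, hs,
      dotProduct_comm]
  rw [this]
  exact h1

theorem bz_lin (R : M4) (a b p : ℤ) (u w w' : Z4) :
    bz R (a • u + p • w) (b • u + p • w') = a * b * bz R u u + a * p * bz R u w' +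
      p * b * bz R w u + p * p * bz R w w' := by
  simp only [H93.bz_eq, Matrix.mulVec_add, Matrix.mulVec_smul, add_dotProduct, dotProduct_add,
    smul_dotProduct, dotProduct_smul, smul_eq_mul]
  ring

theorem cloII (hPk : PkZStmt) (hCls : ClsStmt) (hIdx : IdxStmt) (hCod : Cod2Stmt) (hNrm : NrmStmt)
    (hResT : ResTStmt) (hWrd : Wrd1Stmt) (hStab : StabIIStmt) : CloIIStmt := by
  rintro O F s hO hs L hlat hrefl ⟨W, W', hW, hL, hdet, hprim, hR, hrad⟩
  have hp := hO.pr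
  have h2 : 2 ≤ O.p := hp.two_le
  have hp0 : (O.p : ℤ) ≠ 0 := by exact_mod_cast hp.ne_zero
  have hP := Nat.prime_iff_prime_int.1 hp
  have hsym : (matI O.A).transpose = matI O.A := hO.lat.symm
  have hnd := dvd_all_of_det hp hdet
  have hne : ∃ y, ¬ Cg O.p (W.mulVec y) 0 := by
    by_contra hcon
    push Not at hcon
    apply hnd
    intro i j
    have := hcon (Pi.single j 1) i
    rw [Matrix.mulVec_single_one] at this
    simpa using this
  have hunit : ¬ IsUnit W.det := by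
    rw [Int.isUnit_iff_natAbs_eq, hdet]
    intro h
    have := Nat.one_lt_pow (n := 3) (by norm_num) hp.one_lt
    omega
  -- the lattice is a line
  obtain ⟨X, hX, x0, hx0, rfl⟩ : ∃ X, Bas O.p X W ∧ ∃ x, LnForm O.p x ∧ X = SubX O.p [x] := by
    obtain ⟨X, hX, ⟨x, hx, rfl⟩ | ⟨y, hy, rfl⟩ | ⟨x, y, hx, rfl⟩⟩ :=
      hCls O.p W W' hp hW hunit hne
    · exact ⟨_, hX, x, hx, rfl⟩
    · have h := ((hIdx O.p hp).2.2 y hy).2 W hX
      rw [hdet] at h
      have h' := Nat.pow_right_injective hp.two_le (show O.p ^ 3 = O.p ^ 1 by rw [h, pow_one])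
      omega
    · have h := ((hIdx O.p hp).2.1 x y hx).2 W hX
      rw [hdet] at h
      have h' := Nat.pow_right_injective hp.two_le h
      omega
  -- radical vectors
  have hr : ∀ u : Z4, K.radC O (pkZ O.p u) = true → (∀ i, (O.p : ℤ) ∣ (matI O.A).mulVec u i) ∧
      (∀ i, (O.p : ℤ) ∣ (matI O.A).mulVec (vI (K.unp (pkZ O.p u))) i) ∧
      Cg O.p (vI (K.unp (pkZ O.p u))) u ∧
      ∃ (a : ℤ) (w : Z4), u = a • x0 + (O.p : ℤ) • w := by
    intro u hu
    have h1 : ∀ i, (O.p : ℤ) ∣ (matI O.A).mulVec (vI (K.unp (pkZ O.p u))) i := by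
      have := (dvd4_iff _ _).1 hu
      rwa [mulI_vI] at this
    have h3 := (hPk O.p (by omega) hO.ple).2.2.1 u
    obtain ⟨w, hw⟩ := cg_iff.1 h3
    have h4 : ∀ i, (O.p : ℤ) ∣ (matI O.A).mulVec u i := by
      intro i
      have h5 := h1 i
      rw [hw, Matrix.mulVec_add, Matrix.mulVec_smul] at h5
      simp only [Pi.add_apply, Pi.smul_apply, smul_eq_mul] at h5
      exact (Int.dvd_add_left (dvd_mul_right _ _)).1 h5
    obtain ⟨y, hy⟩ := hrad u h4
    exact ⟨h4, h1, h3, mem1.1 ((hX.2 u).2 ⟨y, hy⟩)⟩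
  have hs' : K.fc (Nat.mod s 8) (fun h => K.fc (Nat.div s 8) fun s =>
    (Nat.rec (K.okb (K.notb (K.dvdI O.p (K.detA O.A))) s)
    (fun h _ => Nat.rec
      (K.rdP O s fun x s => K.rdP O s fun y s => K.okb (K.ands (K.ands (K.radC O x) (K.radC O y))
        (Nat.ble 1 (K.code2 O.p x y))) s)
      (fun h _ => K.rdP O s fun x s => Bool.rec 0
        (Nat.rec (K.okb (K.dvdI (Nat.mul O.p O.p) (K.dotI (K.unp x) (K.mulI O.A (K.unp x)))) s)
          (fun h _ => Nat.rec (K.resT O (List.cons x List.nil) (Nat.pow O.p 3) O.p s)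
            (fun _ _ => K.fc (K.nrmP O.p x) fun z =>
              K.wrd1 O K.actC z (Nat.mod s 64) z z 1 K.S1 K.S2 K.S3 (Nat.div s 64)) h) h)
        (K.ands (Nat.ble 1 x) (K.radC O x))) h) h : ℕ)) ≠ 0 := hs
  rw [fc_eq, fc_eq] at hs'
  rcases hm : Nat.mod s 8 with _ | h
  · -- determinant prime to p
    exfalso
    rw [hm] at hs'
    have h1 := (notb_iff _).1 (okb_ne hs')
    have h2 : ¬ (O.p : ℤ) ∣ (matI O.A).det := by
      rw [← detA_eq, ← dvdI_iff, h1]
      simp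
    apply hnd
    intro i j
    have h3 : (matI O.A).det * W i j = ∑ k, (matI O.A).adjugate i k * (matI O.A * W) k j := by
      have : (matI O.A).adjugate * (matI O.A * W) = (matI O.A).det • W := by
        rw [← Matrix.mul_assoc, Matrix.adjugate_mul, Matrix.smul_mul, Matrix.one_mul]
      have := congrFun (congrFun this i) j
      rw [Matrix.mul_apply] at this
      rw [this]
      simp
    have h4 : (O.p : ℤ) ∣ (matI O.A).det * W i j := by
      rw [h3]
      refine Finset.dvd_sum fun k _ => Dvd.dvd.mul_left ?_ _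
      have := hR (Pi.single j 1) k
      rw [Matrix.mulVec_mulVec, Matrix.mulVec_single_one] at this
      simpa using this
    exact (hP.dvd_or_dvd h4).resolve_left h2
  rw [hm] at hs'
  clear hm
  rcases h with _ | h
  · -- rank at most two
    exfalso
    obtain ⟨u, t1, h1⟩ := rdP_ex hPk O (by omega) hO.ple (Nat.div s 8) fun x s => K.rdP O s
      fun y s => K.okb (K.ands (K.ands (K.radC O x) (K.radC O y)) (Nat.ble 1 (K.code2 O.p x y))) s
    have hs2 : (K.rdP O (Nat.div s 8) fun x s => K.rdP O s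
      fun y s => K.okb (K.ands (K.ands (K.radC O x) (K.radC O y)) (Nat.ble 1 (K.code2 O.p x y))) s) ≠ 0
      := hs'
    rw [h1] at hs2
    obtain ⟨v, t2, h3⟩ := rdP_ex hPk O (by omega) hO.ple t1 fun y s =>
      K.okb (K.ands (K.ands (K.radC O (pkZ O.p u)) (K.radC O y))
        (Nat.ble 1 (K.code2 O.p (pkZ O.p u) y))) s
    have hs3 := hs2
    rw [h3] at hs3
    have h4 := okb_ne hs3
    rw [ands_iff, ands_iff] at h4
    obtain ⟨⟨hu, hv⟩, hc⟩ := h4
    have hind := (hCod O.p u v hp hO.ple).1 (Nat.le_of_ble_eq_true hc)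
    obtain ⟨-, -, -, a, w, ha⟩ := hr u hu
    obtain ⟨-, -, -, b, w', hb⟩ := hr v hv
    have h5 := hind b (-a) (cg_zero.2 ⟨b • w - a • w', by rw [ha, hb]; module⟩)
    obtain ⟨k, hk⟩ := (Int.dvd_neg).1 h5.2
    have h6 := hind 1 0 (cg_zero.2 ⟨k • x0 + w, by rw [ha, hk]; module⟩)
    have h7 : (O.p : ℤ) ∣ 1 := h6.1
    exact hP.not_isUnit (isUnit_of_dvd_one h7)
  -- a radical vector
  obtain ⟨u, t1, h1⟩ := rdP_ex hPk O (by omega) hO.ple (Nat.div s 8) fun x s => Bool.rec 0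
        (Nat.rec (K.okb (K.dvdI (Nat.mul O.p O.p) (K.dotI (K.unp x) (K.mulI O.A (K.unp x)))) s)
          (fun h _ => Nat.rec (K.resT O (List.cons x List.nil) (Nat.pow O.p 3) O.p s)
            (fun _ _ => K.fc (K.nrmP O.p x) fun z =>
              K.wrd1 O K.actC z (Nat.mod s 64) z z 1 K.S1 K.S2 K.S3 (Nat.div s 64)) h) h)
        (K.ands (Nat.ble 1 x) (K.radC O x))
  have hs2 : (K.rdP O (Nat.div s 8) fun x s => Bool.rec 0
        (Nat.rec (K.okb (K.dvdI (Nat.mul O.p O.p) (K.dotI (K.unp x) (K.mulI O.A (K.unp x)))) s)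
          (fun h _ => Nat.rec (K.resT O (List.cons x List.nil) (Nat.pow O.p 3) O.p s)
            (fun _ _ => K.fc (K.nrmP O.p x) fun z =>
              K.wrd1 O K.actC z (Nat.mod s 64) z z 1 K.S1 K.S2 K.S3 (Nat.div s 64)) h) h)
        (K.ands (Nat.ble 1 x) (K.radC O x))) ≠ 0 := hs'
  rw [h1] at hs2
  clear hs' h1
  rcases hb : K.ands (Nat.ble 1 (pkZ O.p u)) (K.radC O (pkZ O.p u)) with _ | _
  · rw [hb] at hs2
    exact absurd rfl hs2
  rw [hb] at hs2
  rw [ands_iff] at hb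
  obtain ⟨hge, hru⟩ := hb
  have hge' := Nat.le_of_ble_eq_true hge
  obtain ⟨hu1, hu2, hu3, a, w, ha⟩ := hr u hru
  have hu0 : ¬ Cg O.p u 0 := by
    intro h
    have := ((hPk O.p (by omega) hO.ple).1 u 0).2 h
    rw [this] at hge'
    simp [pkZ] at hge'
  have hpa : ¬ (O.p : ℤ) ∣ a := by
    rintro ⟨k, hk⟩
    exact hu0 (cg_zero.2 ⟨k • x0 + w, by rw [ha, hk]; module⟩)
  have hXu : SubX O.p [u] = SubX O.p [x0] := line_eq hp hpa (cg_iff.2 ⟨w, ha⟩)
  have hXu' : SubX O.p [vI (K.unp (pkZ O.p u))] = SubX O.p [x0] := by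
    rw [← hXu]
    refine line_eq hp (c := 1) ?_ ?_
    · exact fun h => hP.not_isUnit (isUnit_of_dvd_one h)
    · rwa [one_smul]
  rcases h with _ | h
  · -- not primitive
    exfalso
    have h1 := okb_ne hs2
    rw [dvdI_iff, dotI_mulI] at h1
    set u' := vI (K.unp (pkZ O.p u)) with hu'
    apply prim_ne hp hprim
    intro i j
    have m1 : ∀ k : Fin 4, ∃ (a : ℤ) (w : Z4), W.mulVec (Pi.single k 1) = a • u' + (O.p : ℤ) • w := by
      intro k
      have : W.mulVec (Pi.single k 1) ∈ SubX O.p [u'] := by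
        rw [hXu']
        exact (hX.2 _).2 ⟨_, rfl⟩
      exact mem1.1 this
    obtain ⟨a1, w1, e1⟩ := m1 i
    obtain ⟨a2, w2, e2⟩ := m1 j
    have e3 : (O.p : ℤ) * L i j = bz (matI O.A) (W.mulVec (Pi.single i 1)) (W.mulVec (Pi.single j 1)) := by
      have := congrFun (congrFun hL i) j
      rw [Matrix.smul_apply, smul_eq_mul] at this
      rw [this, H93.bz_eq, Matrix.mulVec_single_one, Matrix.mulVec_single_one, Matrix.mul_assoc,
        Matrix.mul_apply]
      rfl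
    have e4 : ((O.p : ℤ) * (O.p : ℤ)) ∣ (O.p : ℤ) * L i j := by
      rw [e3, e1, e2, bz_lin]
      obtain ⟨q1, hq1⟩ := (bz_dvd hsym hu2 w2).2
      obtain ⟨q2, hq2⟩ := (bz_dvd hsym hu2 w1).1
      obtain ⟨q3, hq3⟩ := h1
      rw [hq1, hq2, hq3]
      refine ⟨a1 * a2 * q3 + a1 * q1 + a2 * q2 + bz (matI O.A) w1 w2, ?_⟩
      rw [show ((Nat.mul O.p O.p : ℕ) : ℤ) = (O.p : ℤ) * (O.p : ℤ) from by
        rw [show Nat.mul O.p O.p = O.p * O.p from rfl]; push_cast; ring]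
      ring
    exact Int.dvd_of_mul_dvd_mul_left hp0 e4
  rcases h with _ | h
  · -- table
    have hs3 : K.resT O [pkZ O.p u] (O.p ^ 3) O.p t1 ≠ 0 := hs2
    have hs4 : K.resT O ([u].map (pkZ O.p)) (O.p ^ 3) O.p t1 ≠ 0 := by
      rw [List.map_cons, List.map_nil]
      exact hs3
    have hlen : [u].length ≤ 3 := by simp
    obtain ⟨M, T, hM, hMd, hT, hMT⟩ := hResT O F [u] (O.p ^ 3) O.p t1 hO hlen hs4
    have hM' : ∀ x, M.mulVec x ∈ SubX O.p [x0] := by
      intro x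
      rw [← hXu]
      exact hM x
    obtain ⟨U, hU⟩ := tabU O.p _ _ W M (pow_pos hp.pos 3) hX hdet hM' hMd
    refine ⟨T, hT, U, H93.cancel_smulM hp0 ?_⟩
    rw [← hMT, hU, Matrix.transpose_mul]
    calc (O.p : ℤ) • ((U : M4).transpose * L * (U : M4))
        = (U : M4).transpose * ((O.p : ℤ) • L) * (U : M4) := by
          rw [Matrix.mul_smul, Matrix.smul_mul]
      _ = _ := by
          rw [hL]
          simp only [Matrix.mul_assoc]
  · -- word
    exfalso
    have hs3 : K.fc (K.nrmP O.p (pkZ O.p u)) (fun z =>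
              K.wrd1 O K.actC z (Nat.mod t1 64) z z 1 K.S1 K.S2 K.S3 (Nat.div t1 64)) ≠ 0 := hs2
    rw [fc_eq] at hs3
    obtain ⟨⟨z, c, hz, hc, hzc, e1, e2⟩, -⟩ := hNrm O.p u hp hO.ple hu0
    rw [e1] at hs3
    have hz0 : ¬ Cg O.p z 0 := by
      intro h
      apply hu0
      intro i
      have h1 := hzc i
      have h2 := h i
      simp only [Pi.zero_apply, sub_zero] at h2 ⊢
      have h3 : (O.p : ℤ) ∣ c * u i := by
        have := dvd_sub h2 h1
        simpa using this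
      exact (hP.dvd_or_dvd h3).resolve_left hc
    have hno := hWrd O F false z _ _ hO hz0 e2 hs3
    have hXz : X1 false O.p z = SubX O.p [x0] := by
      rw [X1_eq hp false hc hzc]
      exact hXu
    rw [hXz] at hno
    exact hno W L O.p 1 hp.pos one_pos hX (by rw [hL]; simp) hlat
      (hStab O.p _ L W W' hp hO.lat hlat hW hL hdet hprim hR) hrefl

end Pool.Agent.Refl.H67
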