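import Pool.Agent.Helper23_Refl.StmtC5
import Pool.Agent.Helper93_Refl.Trans

/-!
# INVX, TABU, TABX
-/

namespace Pool.Agent.Refl.H67

open Matrix Pool.Agent.Refl

theorem dvd_mulVec {c : ℤ} (M : M4) {x : Z4} (h : ∀ i, c ∣ x i) : ∀ i, c ∣ M.mulVec x i := by
  intro i
  simp only [Matrix.mulVec, dotProduct]
  exact Finset.dvd_sum fun j _ => Dvd.dvd.mul_left (h j) _

theorem invX : InvXStmt := by
  rintro p R A X X' hp hR ⟨h, hh, hX⟩ hres W L ⟨⟨W', hW'⟩, hb⟩ hL hprim ⟨hc1, hc2⟩ hlat hrefl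
  have hO : (h : M4).transpose * R * (h : M4) = R := hh
  have h1 : (h : M4) * ((h⁻¹ : M4ˣ) : M4) = 1 := by simp
  have h2 : ((h⁻¹ : M4ˣ) : M4) * (h : M4) = 1 := by simp
  have hRh : R * (h : M4) = ((h⁻¹ : M4ˣ) : M4).transpose * R := by
    have e1 : ((h⁻¹ : M4ˣ) : M4).transpose * (h : M4).transpose = 1 := by
      rw [← Matrix.transpose_mul, h1, Matrix.transpose_one]
    calc R * (h : M4) = (((h⁻¹ : M4ˣ) : M4).transpose * (h : M4).transpose) * (R * (h : M4)) := by
          rw [e1, Matrix.one_mul]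
      _ = ((h⁻¹ : M4ˣ) : M4).transpose * ((h : M4).transpose * R * (h : M4)) := by
          simp only [Matrix.mul_assoc]
      _ = _ := by rw [hO]
  refine hres ((h : M4) * W) L ⟨⟨W' * ((h⁻¹ : M4ˣ) : M4), ?_⟩, ?_⟩ ?_ hprim ⟨?_, ?_⟩ hlat hrefl
  · calc (h : M4) * W * (W' * ((h⁻¹ : M4ˣ) : M4)) = (h : M4) * (W * W') * ((h⁻¹ : M4ˣ) : M4) := by
          simp only [Matrix.mul_assoc]
      _ = _ := by
          rw [hW', Matrix.mul_smul, Matrix.smul_mul, Matrix.mul_one, h1]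
  · intro x
    have e1 : x = (h : M4).mulVec (((h⁻¹ : M4ˣ) : M4).mulVec x) := by
      rw [Matrix.mulVec_mulVec, h1, Matrix.one_mulVec]
    constructor
    · intro hx
      rw [e1] at hx
      obtain ⟨y, hy⟩ := (hb _).1 ((hX _).2 hx)
      refine ⟨y, ?_⟩
      rw [e1, hy, Matrix.mulVec_mulVec]
    · rintro ⟨y, rfl⟩
      rw [← Matrix.mulVec_mulVec]
      exact (hX _).1 ((hb _).2 ⟨y, rfl⟩)
  · rw [hL, Matrix.transpose_mul]
    calc W.transpose * R * W = W.transpose * ((h : M4).transpose * R * (h : M4)) * W := by rw [hO]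
      _ = _ := by simp only [Matrix.mul_assoc]
  · intro w hw
    have e1 : R.mulVec (((h : M4) * W).mulVec w) =
        ((h⁻¹ : M4ˣ) : M4).transpose.mulVec (R.mulVec (W.mulVec w)) := by
      simp only [Matrix.mulVec_mulVec]
      congr 1
      rw [← Matrix.mul_assoc, hRh]
      simp only [Matrix.mul_assoc]
    rw [e1]
    exact dvd_mulVec _ (hc1 w hw)
  · intro x hx
    rw [← Matrix.mulVec_mulVec]
    exact dvd_mulVec _ (hc2 x hx)

theorem tabU : TabUStmt := by
  rintro p X q W M hq ⟨⟨W', hW'⟩, hb⟩ hW hM hMd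
  choose y hy using fun j => (hb (M.mulVec (Pi.single j 1))).1 (hM _)
  have hMW : M = W * Matrix.of fun i j => y j i := by
    ext i j
    have := congrFun (hy j) i
    rw [Matrix.mulVec_single_one] at this
    simpa [Matrix.mul_apply, Matrix.mulVec, dotProduct] using this
  set Y : M4 := Matrix.of fun i j => y j i with hY
  have hd : M.det.natAbs = W.det.natAbs * Y.det.natAbs := by
    rw [hMW, Matrix.det_mul, Int.natAbs_mul]
  have hY1 : Y.det.natAbs = 1 := by
    rw [hW, hMd] at hd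
    exact Nat.eq_of_mul_eq_mul_left hq (by rw [mul_one]; exact hd.symm)
  have hu : IsUnit Y := by
    rw [Matrix.isUnit_iff_isUnit_det]
    exact Int.isUnit_iff_natAbs_eq.2 hY1
  obtain ⟨U, hU⟩ := hu
  exact ⟨U, by rw [hU]; exact hMW⟩

theorem tabX : TabXStmt := by
  rintro p R A X q M T hp hidx hM hMd hT hMT W L hW hL hprim hcan hlat hrefl
  have hWd := hidx W hW
  have hq : 0 < q := by
    obtain ⟨⟨W', hW'⟩, -⟩ := hW
    have := H93.det_ne (p := (p : ℤ)) (by exact_mod_cast hp.ne_zero) hW'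
    rw [← hWd]
    exact Int.natAbs_pos.2 this
  obtain ⟨U, hU⟩ := tabU p X q W M hq hW hWd hM hMd
  refine ⟨T, hT, U, ?_⟩
  rw [hL, ← hMT, hU, Matrix.transpose_mul]
  simp only [Matrix.mul_assoc]

end Pool.Agent.Refl.H67
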