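import Pool.Agent.Helper23_Refl.StmtC5
import Pool.Agent.Helper93_Refl.Lina

/-!
# LOOP
-/

namespace Pool.Agent.Refl.H67

open Matrix Pool.Agent.Refl H93

theorem sq_ne {f g : ℕ → ℕ} {s : ℕ} (h : K.sq f g s ≠ 0) : f s ≠ 0 ∧ ∃ s', g s' ≠ 0 := by
  have h' : (Nat.rec 0 (fun s' _ => g s') (f s) : ℕ) ≠ 0 := h
  rcases hf : f s with _ | n
  · rw [hf] at h'
    exact absurd rfl h'
  · rw [hf] at h'
    exact ⟨by simp, n, h'⟩

theorem blk_ne {f : ℕ → ℕ} {s : ℕ} (h : K.blk f s ≠ 0) : ∃ w, f w ≠ 0 := by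
  have h' : K.fc (Nat.pow 2 (Nat.mod s 65536)) (fun W => K.fc (Nat.div s 65536) fun s =>
    (Nat.rec 0 (fun _ _ => Nat.succ (Nat.div s W)) (K.fc (Nat.mod s W) fun w => f w) : ℕ)) ≠ 0 := h
  rw [fc_eq, fc_eq, fc_eq] at h'
  refine ⟨(s.div 65536).mod (Nat.pow 2 (s.mod 65536)), fun h0 => ?_⟩
  rw [h0] at h'
  exact h' rfl

theorem lp_aux (body : ℕ → ℕ → ℕ) (n : ℕ) : ∀ x s : ℕ,
    (Nat.rec (fun _ s => Nat.succ s) (fun _ ih x s => K.fc x fun x =>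
      (Nat.rec 0 (fun s' _ => ih (Nat.succ x) s') (body x s) : ℕ)) n : ℕ → ℕ → ℕ) x s ≠ 0 →
    ∀ y, x ≤ y → y < x + n → ∃ s', body y s' ≠ 0 := by
  induction n with
  | zero =>
    intro x s _ y h1 h2
    omega
  | succ n ih =>
    intro x s h y h1 h2
    have h' : K.fc x (fun x => (Nat.rec 0 (fun s' _ => (Nat.rec (fun _ s => Nat.succ s)
      (fun _ ih x s => K.fc x fun x =>
      (Nat.rec 0 (fun s' _ => ih (Nat.succ x) s') (body x s) : ℕ)) n : ℕ → ℕ → ℕ) (Nat.succ x) s')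
      (body x s) : ℕ)) ≠ 0 := h
    rw [fc_eq] at h'
    rcases hf : body x s with _ | m
    · rw [hf] at h'
      exact absurd rfl h'
    · rw [hf] at h'
      rcases Nat.eq_or_lt_of_le h1 with rfl | h3
      · exact ⟨s, by rw [hf]; simp⟩
      · exact ih (Nat.succ x) m h' y h3 (by omega)

theorem lpS_ne {n : ℕ} {body : ℕ → ℕ → ℕ} {s : ℕ} (h : K.lpS n body s ≠ 0) :
    ∀ y < n, ∃ s', body y s' ≠ 0 :=
  fun y hy => lp_aux body n 0 s h y (Nat.zero_le _) (by omega)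

theorem pk_nz {p a b c d : ℕ} (ha : a < p) (hb : b < p) (hc : c < p) (hd : d < p) :
    pkZ p (nz a b c d) = K.p4 a b c d := by
  have e : ∀ t : ℕ, t < p → ((t : ℤ) % (p : ℤ)).toNat = t := by
    intro t ht
    rw [← Int.natCast_mod, Int.toNat_natCast, Nat.mod_eq_of_lt ht]
  simp only [pkZ, nz, Matrix.cons_val]
  rw [e a ha, e b hb, e c hc, e d hd]
  show _ = (a + 65536 * b) + (4294967296 * c + 281474976710656 * d)
  omega

theorem neg_mod {p a : ℕ} (ha : a < p) : ((-(a : ℤ)) % (p : ℤ)).toNat = K.ngp p a := by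
  show _ = (p - a) % p
  have h : (-(a : ℤ)) % (p : ℤ) = (((p - a) % p : ℕ) : ℤ) := by
    rw [Int.natCast_mod, Nat.cast_sub ha.le, sub_eq_add_neg]
    simp
  rw [h, Int.toNat_natCast]

theorem zero_mod' {p : ℕ} : ((0 : ℤ) % (p : ℤ)).toNat = 0 := by simp

theorem one_mod' {p : ℕ} (h : 2 ≤ p) : ((1 : ℤ) % (p : ℤ)).toNat = 1 := by
  have : ((1 : ℤ) % (p : ℤ)) = 1 := Int.emod_eq_of_lt (by norm_num) (by exact_mod_cast h)
  rw [this]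
  rfl

theorem p4_eq (a b c d : ℕ) :
    K.p4 a b c d = a + 65536 * b + 4294967296 * c + 281474976710656 * d := by
  show (a + 65536 * b) + (4294967296 * c + 281474976710656 * d) = _
  omega

theorem pk1 {p : ℕ} (hp : 2 ≤ p) : pkZ p ![1, 0, 0, 0] = K.p4 1 0 0 0 := by
  rw [p4_eq]
  simp only [pkZ, Matrix.cons_val, one_mod' hp, zero_mod']

theorem pk2 {p : ℕ} (hp : 2 ≤ p) : pkZ p ![0, 1, 0, 0] = K.p4 0 1 0 0 := by
  rw [p4_eq]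
  simp only [pkZ, Matrix.cons_val, one_mod' hp, zero_mod']

theorem pk3 {p : ℕ} (hp : 2 ≤ p) : pkZ p ![0, 0, 1, 0] = K.p4 0 0 1 0 := by
  rw [p4_eq]
  simp only [pkZ, Matrix.cons_val, one_mod' hp, zero_mod']

theorem hyp1 {p : ℕ} (hp : 2 ≤ p) {a b c : ℕ} (ha : a < p) (hb : b < p) (hc : c < p) :
    (hypB (nz 1 a b c)).map (pkZ p) =
      K.l3 (K.p4 (K.ngp p a) 1 0 0) (K.p4 (K.ngp p b) 0 1 0) (K.p4 (K.ngp p c) 0 0 1) := by
  have e : hypB (nz 1 a b c) = [![-(a : ℤ), 1, 0, 0], ![-(b : ℤ), 0, 1, 0], ![-(c : ℤ), 0, 0, 1]] := by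
    simp [hypB, nz]
  rw [e]
  simp only [List.map_cons, List.map_nil, K.l3, p4_eq, pkZ, Matrix.cons_val, one_mod' hp,
    zero_mod', neg_mod ha, neg_mod hb, neg_mod hc]

theorem hyp2 {p : ℕ} (hp : 2 ≤ p) {a b : ℕ} (ha : a < p) (hb : b < p) :
    (hypB (nz 0 1 a b)).map (pkZ p) =
      K.l3 (K.p4 1 0 0 0) (K.p4 0 (K.ngp p a) 1 0) (K.p4 0 (K.ngp p b) 0 1) := by
  have e : hypB (nz 0 1 a b) = [![1, 0, 0, 0], ![0, -(a : ℤ), 1, 0], ![0, -(b : ℤ), 0, 1]] := by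
    simp [hypB, nz]
  rw [e]
  simp only [List.map_cons, List.map_nil, K.l3, p4_eq, pkZ, Matrix.cons_val, one_mod' hp,
    zero_mod', neg_mod ha, neg_mod hb]

theorem hyp3 {p : ℕ} (hp : 2 ≤ p) {a : ℕ} (ha : a < p) :
    (hypB (nz 0 0 1 a)).map (pkZ p) =
      K.l3 (K.p4 1 0 0 0) (K.p4 0 1 0 0) (K.p4 0 0 (K.ngp p a) 1) := by
  have e : hypB (nz 0 0 1 a) = [![1, 0, 0, 0], ![0, 1, 0, 0], ![0, 0, -(a : ℤ), 1]] := by
    simp [hypB, nz]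
  rw [e]
  simp only [List.map_cons, List.map_nil, K.l3, p4_eq, pkZ, Matrix.cons_val, one_mod' hp,
    zero_mod', neg_mod ha]

theorem hyp4 {p : ℕ} (hp : 2 ≤ p) :
    (hypB (nz 0 0 0 1)).map (pkZ p) =
      K.l3 (K.p4 1 0 0 0) (K.p4 0 1 0 0) (K.p4 0 0 1 0) := by
  have e : hypB (nz 0 0 0 1) = [![1, 0, 0, 0], ![0, 1, 0, 0], ![0, 0, 1, 0]] := by
    simp [hypB, nz]
  rw [e]
  simp only [List.map_cons, List.map_nil, K.l3, p4_eq, pkZ, Matrix.cons_val, one_mod' hp,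
    zero_mod']

theorem loop : LoopStmt := by
  intro O s hp hple
  have h0 : 0 < O.p := by omega
  have h1 : 1 < O.p := by omega
  refine ⟨fun h x hx => ?_, fun h x hx => ?_, fun h x y hxy => ?_⟩
  · obtain ⟨hA, s1, h⟩ := sq_ne h
    obtain ⟨hB, s2, h⟩ := sq_ne h
    obtain ⟨hC, s3, hD⟩ := sq_ne h
    obtain ⟨a, b, c, ha, hb, hc, rfl | rfl | rfl | rfl⟩ := hx
    · obtain ⟨t1, h⟩ := lpS_ne hA a ha
      obtain ⟨t2, h⟩ := lpS_ne h b hb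
      obtain ⟨t3, h⟩ := blk_ne h
      obtain ⟨t4, h⟩ := lpS_ne h c hc
      rw [fc_eq] at h
      refine ⟨t4, ?_⟩
      rw [show B1 false (nz 1 a b c) = [nz 1 a b c] from rfl, List.map_cons, List.map_nil,
        pk_nz h1 ha hb hc]
      exact h
    · obtain ⟨t1, h⟩ := lpS_ne hB a ha
      obtain ⟨t2, h⟩ := blk_ne h
      obtain ⟨t3, h⟩ := lpS_ne h b hb
      rw [fc_eq] at h
      refine ⟨t3, ?_⟩
      rw [show B1 false (nz 0 1 a b) = [nz 0 1 a b] from rfl, List.map_cons, List.map_nil,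
        pk_nz h0 h1 ha hb]
      exact h
    · obtain ⟨t1, h⟩ := lpS_ne hC a ha
      rw [fc_eq] at h
      refine ⟨t1, ?_⟩
      rw [show B1 false (nz 0 0 1 a) = [nz 0 0 1 a] from rfl, List.map_cons, List.map_nil,
        pk_nz h0 h0 h1 ha]
      exact h
    · rw [fc_eq] at hD
      refine ⟨s3, ?_⟩
      rw [show B1 false (nz 0 0 0 1) = [nz 0 0 0 1] from rfl, List.map_cons, List.map_nil,
        pk_nz h0 h0 h0 h1]
      exact hD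
  · obtain ⟨hA, s1, h⟩ := sq_ne h
    obtain ⟨hB, s2, h⟩ := sq_ne h
    obtain ⟨hC, s3, hD⟩ := sq_ne h
    obtain ⟨a, b, c, ha, hb, hc, rfl | rfl | rfl | rfl⟩ := hx
    · obtain ⟨t1, h⟩ := lpS_ne hA a ha
      obtain ⟨t2, h⟩ := lpS_ne h b hb
      obtain ⟨t3, h⟩ := blk_ne h
      obtain ⟨t4, h⟩ := lpS_ne h c hc
      rw [fc_eq] at h
      refine ⟨t4, ?_⟩
      rw [show B1 true (nz 1 a b c) = hypB (nz 1 a b c) from rfl, hyp1 hp ha hb hc,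
        pk_nz h1 ha hb hc]
      exact h
    · obtain ⟨t1, h⟩ := lpS_ne hB a ha
      obtain ⟨t2, h⟩ := blk_ne h
      obtain ⟨t3, h⟩ := lpS_ne h b hb
      rw [fc_eq] at h
      refine ⟨t3, ?_⟩
      rw [show B1 true (nz 0 1 a b) = hypB (nz 0 1 a b) from rfl, hyp2 hp ha hb,
        pk_nz h0 h1 ha hb]
      exact h
    · obtain ⟨t1, h⟩ := lpS_ne hC a ha
      rw [fc_eq] at h
      refine ⟨t1, ?_⟩
      rw [show B1 true (nz 0 0 1 a) = hypB (nz 0 0 1 a) from rfl, hyp3 hp ha,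
        pk_nz h0 h0 h1 ha]
      exact h
    · rw [fc_eq] at hD
      refine ⟨s3, ?_⟩
      rw [show B1 true (nz 0 0 0 1) = hypB (nz 0 0 0 1) from rfl, hyp4 hp,
        pk_nz h0 h0 h0 h1]
      exact hD
  · obtain ⟨hA, s1, h⟩ := sq_ne h
    obtain ⟨hB, s2, h⟩ := sq_ne h
    obtain ⟨hC, s3, h⟩ := sq_ne h
    obtain ⟨hD, s4, h⟩ := sq_ne h
    obtain ⟨hE, s5, hF⟩ := sq_ne h
    obtain ⟨a, b, c, d, ha, hb, hc, hd, ⟨rfl, rfl⟩ | ⟨rfl, rfl⟩ | ⟨rfl, rfl⟩ | ⟨rfl, rfl⟩ |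
      ⟨rfl, rfl⟩ | ⟨rfl, rfl⟩⟩ := hxy
    · obtain ⟨t1, h⟩ := lpS_ne hA a ha
      obtain ⟨t2, h⟩ := lpS_ne h b hb
      obtain ⟨t3, h⟩ := lpS_ne h c hc
      obtain ⟨t4, h⟩ := blk_ne h
      obtain ⟨t5, h⟩ := lpS_ne h d hd
      rw [fc_eq, fc_eq] at h
      exact ⟨t5, by rw [pk_nz h1 h0 ha hb, pk_nz h0 h1 hc hd]; exact h⟩
    · obtain ⟨t1, h⟩ := lpS_ne hB a ha
      obtain ⟨t2, h⟩ := lpS_ne h b hb
      obtain ⟨t3, h⟩ := blk_ne h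
      obtain ⟨t4, h⟩ := lpS_ne h c hc
      rw [fc_eq, fc_eq] at h
      exact ⟨t4, by rw [pk_nz h1 ha h0 hb, pk_nz h0 h0 h1 hc]; exact h⟩
    · obtain ⟨t1, h⟩ := lpS_ne hC a ha
      obtain ⟨t2, h⟩ := blk_ne h
      obtain ⟨t3, h⟩ := lpS_ne h b hb
      rw [fc_eq, fc_eq] at h
      exact ⟨t3, by rw [pk_nz h1 ha hb h0, pk_nz h0 h0 h0 h1]; exact h⟩
    · obtain ⟨t1, h⟩ := lpS_ne hD a ha
      obtain ⟨t2, h⟩ := blk_ne h
      obtain ⟨t3, h⟩ := lpS_ne h b hb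
      rw [fc_eq, fc_eq] at h
      exact ⟨t3, by rw [pk_nz h0 h1 h0 ha, pk_nz h0 h0 h1 hb]; exact h⟩
    · obtain ⟨t1, h⟩ := lpS_ne hE a ha
      rw [fc_eq, fc_eq] at h
      exact ⟨t1, by rw [pk_nz h0 h1 ha h0, pk_nz h0 h0 h0 h1]; exact h⟩
    · rw [fc_eq, fc_eq] at hF
      exact ⟨s5, by rw [pk_nz h0 h0 h1 h0, pk_nz h0 h0 h0 h1]; exact hF⟩

end Pool.Agent.Refl.H67
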