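import Pool.Agent.Helper67_Refl.SubL
import Pool.Agent.Helper67_Refl.Inv
import Pool.Agent.Helper67_Refl.Loop

/-!
# CLOI
-/

namespace Pool.Agent.Refl.H67

open Matrix Pool.Agent.Refl

theorem lines (hSub1 : Sub1Stmt) (hNrm : NrmStmt) (O : K.OC) (F : List K.I4)
    (hO : OCok O F) (b : Bool)
    (H : ∀ x, LnForm O.p x → ∃ s',
      K.sub1 O (actB b) (q1 b O.p) (pkZ O.p x) ((B1 b x).map (pkZ O.p)) s' ≠ 0) :
    ∀ x, LnForm O.p x → ResX O.p (matI O.A) (tlist O.ta O.tn) (X1 b O.p x) := by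
  have key : ∀ n : ℕ, ∀ x, pkZ O.p x = n → LnForm O.p x →
      ResX O.p (matI O.A) (tlist O.ta O.tn) (X1 b O.p x) := by
    intro n
    induction n using Nat.strong_induction_on with
    | _ n ih =>
      intro x hn hx
      obtain ⟨s', hs'⟩ := H x hx
      rcases hSub1 O F b x s' hO hx hs' with h | ⟨x', h0, hlt, h, hh, hX⟩
      · exact h
      · obtain ⟨⟨z, c, hz, hc, hzc, e1, -⟩, -⟩ := hNrm O.p x' hO.pr hO.ple h0
        have e2 := X1_eq hO.pr b hc hzc
        have h3 := ih (pkZ O.p z) (by rw [← e1, ← hn]; exact hlt) z rfl hz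
        rw [e2] at h3
        exact invX O.p _ _ _ _ hO.pr hO.lat ⟨h, hh, hX⟩ h3
  exact fun x hx => key _ x rfl hx

theorem planes (hSub2 : Sub2Stmt) (hCod : Cod2Stmt) (O : K.OC) (F : List K.I4)
    (hO : OCok O F) (H : ∀ x y, PlForm O.p x y → ∃ s', K.sub2 O (pkZ O.p x) (pkZ O.p y) s' ≠ 0) :
    ∀ x y, PlForm O.p x y → ResX O.p (matI O.A) (tlist O.ta O.tn) (SubX O.p [x, y]) := by
  have key : ∀ n : ℕ, ∀ x y, K.code2 O.p (pkZ O.p x) (pkZ O.p y) = n → PlForm O.p x y →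
      ResX O.p (matI O.A) (tlist O.ta O.tn) (SubX O.p [x, y]) := by
    intro n
    induction n using Nat.strong_induction_on with
    | _ n ih =>
      intro x y hn hx
      obtain ⟨s', hs'⟩ := H x y hx
      rcases hSub2 O F x y s' hO hx hs' with h | ⟨x', y', h0, hlt, h, hh, hX⟩
      · exact h
      · obtain ⟨-, h2, h3⟩ := hCod O.p x' y' hO.pr hO.ple
        obtain ⟨x'', y'', a, b, c, d, hf, hD, hcx, hcy⟩ := h3 h0
        have e1 := h2 h0 x'' y'' a b c d hD hcx hcy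
        have e2 := plane_eq hO.pr hD hcx hcy
        have h3 := ih _ (by rw [← e1, hn] at hlt; exact hlt) x'' y'' rfl hf
        rw [e2] at h3
        exact invX O.p _ _ _ _ hO.pr hO.lat ⟨h, hh, hX⟩ h3
  exact fun x y hx => key _ x y rfl hx

theorem prim_ne {p : ℕ} (hp : p.Prime) {L : M4} (h : PrimG L) : ¬ ∀ i j, (p : ℤ) ∣ L i j := by
  intro h'
  have := h _ h'
  rw [Int.isUnit_iff_natAbs_eq, Int.natAbs_natCast] at this
  exact hp.one_lt.ne' this

theorem cloI (hSub1 : Sub1Stmt) (hSub2 : Sub2Stmt) (hNrm : NrmStmt) (hCod : Cod2Stmt)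
    (hCls : ClsStmt) : CloIStmt := by
  rintro O F s hO hs L hlat hrefl ⟨W, W', hW, hL, hunit, hprim, hcan⟩
  have hs' : K.sq (K.lnC O) (K.sq (K.hpC O) (K.plC O)) s ≠ 0 := hs
  obtain ⟨hA, s1, h⟩ := sq_ne hs'
  obtain ⟨hB, s2, hC⟩ := sq_ne h
  have h2 : 2 ≤ O.p := hO.pr.two_le
  have l1 := (loop O s h2 hO.ple).1 hA
  have l2 := (loop O s1 h2 hO.ple).2.1 hB
  have l3 := (loop O s2 h2 hO.ple).2.2 hC
  have hne : ∃ y, ¬ Cg O.p (W.mulVec y) 0 := by
    by_contra hcon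
    push Not at hcon
    apply prim_ne hO.pr hprim
    intro i j
    rw [hL, Matrix.mul_apply]
    refine Finset.dvd_sum fun k _ => Dvd.dvd.mul_left ?_ _
    have := hcon (Pi.single j 1) k
    rw [Matrix.mulVec_single_one] at this
    simpa using this
  obtain ⟨X, hX, ⟨x, hx, rfl⟩ | ⟨y, hy, rfl⟩ | ⟨x, y, hx, rfl⟩⟩ := hCls O.p W W' hO.pr hW hunit hne
  · exact lines hSub1 hNrm O F hO false l1 x hx W L hX hL hprim hcan hlat hrefl
  · exact lines hSub1 hNrm O F hO true l2 y hy W L hX hL hprim hcan hlat hrefl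
  · exact planes hSub2 hCod O F hO l3 x y hx W L hX hL hprim hcan hlat hrefl

end Pool.Agent.Refl.H67
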