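import Pool.Agent.Helper23_Refl.StmtC5
import Pool.Agent.Helper93_Refl.Trans

/-!
# Sublattices between `p ℤ⁴` and `ℤ⁴`: equality of lines, hyperplanes and planes
-/

namespace Pool.Agent.Refl.H67

open Matrix Pool.Agent.Refl

theorem cg_zero {p : ℕ} {v : Z4} : Cg p v 0 ↔ ∃ w : Z4, v = (p : ℤ) • w := by
  constructor
  · intro h
    choose w hw using h
    refine ⟨w, funext fun i => ?_⟩
    have := hw i
    simpa using this
  · rintro ⟨w, rfl⟩ i
    simp

theorem cg_iff {p : ℕ} {u v : Z4} : Cg p u v ↔ ∃ w : Z4, u = v + (p : ℤ) • w := by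
  constructor
  · intro h
    choose w hw using h
    refine ⟨w, funext fun i => ?_⟩
    have := hw i
    simp only [Pi.add_apply, Pi.smul_apply, smul_eq_mul]
    linarith
  · rintro ⟨w, rfl⟩ i
    simp

theorem mem1 {p : ℕ} {x v : Z4} :
    v ∈ SubX p [x] ↔ ∃ (a : ℤ) (w : Z4), v = a • x + (p : ℤ) • w := by
  constructor
  · intro h
    refine Submodule.span_induction ?_ ?_ ?_ ?_ h
    · rintro u (hu | ⟨w, rfl⟩)
      · have : u = x := by simpa using hu
        exact ⟨1, 0, by rw [this]; simp⟩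
      · exact ⟨0, w, by simp⟩
    · exact ⟨0, 0, by simp⟩
    · rintro u v - - ⟨a, w, rfl⟩ ⟨a', w', rfl⟩
      exact ⟨a + a', w + w', by module⟩
    · rintro c u - ⟨a, w, rfl⟩
      exact ⟨c * a, c • w, by module⟩
  · rintro ⟨a, w, rfl⟩
    refine add_mem (Submodule.smul_mem _ _ (Submodule.subset_span (Or.inl ?_)))
      (Submodule.subset_span (Or.inr ⟨w, rfl⟩))
    simp

theorem mem2 {p : ℕ} {x y v : Z4} :
    v ∈ SubX p [x, y] ↔ ∃ (a b : ℤ) (w : Z4), v = a • x + b • y + (p : ℤ) • w := by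
  constructor
  · intro h
    refine Submodule.span_induction ?_ ?_ ?_ ?_ h
    · rintro u (hu | ⟨w, rfl⟩)
      · have : u = x ∨ u = y := by simpa using hu
        rcases this with rfl | rfl
        · exact ⟨1, 0, 0, by simp⟩
        · exact ⟨0, 1, 0, by simp⟩
      · exact ⟨0, 0, w, by simp⟩
    · exact ⟨0, 0, 0, by simp⟩
    · rintro u v - - ⟨a, b, w, rfl⟩ ⟨a', b', w', rfl⟩
      exact ⟨a + a', b + b', w + w', by module⟩
    · rintro c u - ⟨a, b, w, rfl⟩
      exact ⟨c * a, c * b, c • w, by module⟩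
  · rintro ⟨a, b, w, rfl⟩
    refine add_mem (add_mem (Submodule.smul_mem _ _ (Submodule.subset_span (Or.inl ?_)))
      (Submodule.smul_mem _ _ (Submodule.subset_span (Or.inl ?_))))
      (Submodule.subset_span (Or.inr ⟨w, rfl⟩)) <;> simp

/-- inverse modulo a prime -/
theorem inv_mod {p : ℕ} (hp : p.Prime) {c : ℤ} (hc : ¬ (p : ℤ) ∣ c) :
    ∃ c' k : ℤ, c' * c = 1 + (p : ℤ) * k := by
  have h : IsCoprime (p : ℤ) c := (Nat.prime_iff_prime_int.1 hp).coprime_iff_not_dvd.2 hc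
  obtain ⟨a, b, hab⟩ := h
  exact ⟨b, -a, by linarith⟩

theorem line_eq {p : ℕ} (hp : p.Prime) {x z : Z4} {c : ℤ} (hc : ¬ (p : ℤ) ∣ c)
    (h : Cg p z (c • x)) : SubX p [z] = SubX p [x] := by
  obtain ⟨w, rfl⟩ := cg_iff.1 h
  obtain ⟨c', k, hk⟩ := inv_mod hp hc
  ext v
  rw [mem1, mem1]
  constructor
  · rintro ⟨a, u, rfl⟩
    exact ⟨a * c, a • w + u, by module⟩
  · rintro ⟨a, u, rfl⟩
    refine ⟨a * c', u - (a * k) • x - (a * c') • w, ?_⟩
    have e : a • x = (a * c') • (c • x) - ((p : ℤ) * (a * k)) • x := by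
      rw [smul_smul, ← sub_smul]
      congr 1
      linear_combination -a * hk
    rw [e]
    module

theorem hyp_eq {p : ℕ} (hp : p.Prime) {x z : Z4} {c : ℤ} (hc : ¬ (p : ℤ) ∣ c)
    (h : Cg p z (c • x)) : HypX p z = HypX p x := by
  obtain ⟨w, rfl⟩ := cg_iff.1 h
  ext v
  show (p : ℤ) ∣ (c • x + (p : ℤ) • w) ⬝ᵥ v ↔ (p : ℤ) ∣ x ⬝ᵥ v
  rw [add_dotProduct, smul_dotProduct, smul_dotProduct, smul_eq_mul, smul_eq_mul]
  constructor
  · intro h
    have h2 : (p : ℤ) ∣ c * (x ⬝ᵥ v) := (Int.dvd_add_left (dvd_mul_right _ _)).1 h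
    exact ((Nat.prime_iff_prime_int.1 hp).dvd_or_dvd h2).resolve_left hc
  · intro h
    exact dvd_add (Dvd.dvd.mul_left h _) (dvd_mul_right _ _)

theorem X1_eq {p : ℕ} (hp : p.Prime) (b : Bool) {x z : Z4} {c : ℤ} (hc : ¬ (p : ℤ) ∣ c)
    (h : Cg p z (c • x)) : X1 b p z = X1 b p x := by
  cases b
  · exact line_eq hp hc h
  · exact hyp_eq hp hc h

theorem plane_eq {p : ℕ} (hp : p.Prime) {x y x' y' : Z4} {a b c d : ℤ}
    (hD : ¬ (p : ℤ) ∣ a * d - b * c) (hx : Cg p x' (a • x + b • y))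
    (hy : Cg p y' (c • x + d • y)) : SubX p [x', y'] = SubX p [x, y] := by
  obtain ⟨u, rfl⟩ := cg_iff.1 hx
  obtain ⟨w, rfl⟩ := cg_iff.1 hy
  obtain ⟨D, k, hk⟩ := inv_mod hp hD
  ext v
  rw [mem2, mem2]
  constructor
  · rintro ⟨s, t, r, rfl⟩
    exact ⟨s * a + t * c, s * b + t * d, s • u + t • w + r, by module⟩
  · rintro ⟨s, t, r, rfl⟩
    refine ⟨D * (s * d - t * c), D * (t * a - s * b),
      r - (s * k) • x - (t * k) • y - (D * (s * d - t * c)) • u - (D * (t * a - s * b)) • w, ?_⟩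
    have e1 : s = D * (s * d - t * c) * a + D * (t * a - s * b) * c - (p : ℤ) * (s * k) := by
      linear_combination -s * hk
    have e2 : t = D * (s * d - t * c) * b + D * (t * a - s * b) * d - (p : ℤ) * (t * k) := by
      linear_combination -t * hk
    have e3 : s • x + t • y = (D * (s * d - t * c)) • (a • x + b • y) +
        (D * (t * a - s * b)) • (c • x + d • y) - (p : ℤ) • ((s * k) • x + (t * k) • y) := by
      calc s • x + t • y = (D * (s * d - t * c) * a + D * (t * a - s * b) * c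
            - (p : ℤ) * (s * k)) • x + (D * (s * d - t * c) * b + D * (t * a - s * b) * d
            - (p : ℤ) * (t * k)) • y := by rw [← e1, ← e2]
        _ = _ := by module
    rw [e3]
    module

end Pool.Agent.Refl.H67
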